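import Mathlib

/-!
MP_c0e3d8_co, Q1: a morphism generating a quasiperiodic infinite word `f^ω(a)`, with `f(a)` not a
power of `a`, is weakly quasiperiodic on infinite words.
-/

set_option autoImplicit false

namespace Pool.Agent.Results.MP_c0e3d8_co.WeaklyQuasi

variable {A : Type}

/-- prefix of length `n` of an infinite word -/
def pre (w : ℕ → A) (n : ℕ) : List A := (List.range n).map w

/-- the finite word `y` occurs in the infinite word `w` at position `c` -/
def OccursAt (y : List A) (w : ℕ → A) (c : ℕ) : Prop := ∀ k (h : k < y.length), w (c + k) = y[k]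

/-- `y` covers `w` -/
def Covers (y : List A) (w : ℕ → A) : Prop :=
  ∀ p : ℕ, ∃ c ≤ p, p < c + y.length ∧ OccursAt y w c

/-- an infinite word is quasiperiodic if some finite word covers it -/
def Quasi (w : ℕ → A) : Prop := ∃ y : List A, Covers y w

/-- `v` is the (infinite) word `f(w_0) f(w_1) f(w_2) ...` -/
def IsImage (f : A → List A) (w v : ℕ → A) : Prop :=
  (∀ N, ∃ n, N ≤ ((pre w n).flatMap f).length) ∧
    ∀ n, (pre w n).flatMap f = pre v ((pre w n).flatMap f).length

/-- `f^n(b)` -/
def iter (f : A → List A) : ℕ → A → List A
  | 0 => fun b => [b]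
  | (n + 1) => fun b => (f b).flatMap (iter f n)

/-- `f` generates `u = f^ω(a)` -/
def Generates (f : A → List A) (a : A) (u : ℕ → A) : Prop :=
  (∃ t, f a = a :: t) ∧ (∀ N, ∃ n, N ≤ (iter f n a).length) ∧
    ∀ n, iter f n a = pre u (iter f n a).length

/-- `f` is weakly quasiperiodic on infinite words -/
def WeaklyQuasiperiodic (f : A → List A) : Prop :=
  ∃ w v : ℕ → A, ¬ Quasi w ∧ IsImage f w v ∧ Quasi v

theorem pre_length (w : ℕ → A) (n : ℕ) : (pre w n).length = n := by simp [pre]

theorem pre_getElem (w : ℕ → A) (n k : ℕ) (h : k < (pre w n).length) : (pre w n)[k] = w k := by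
  simp [pre]

theorem eq_pre_iff (l : List A) (w : ℕ → A) :
    l = pre w l.length ↔ ∀ k (h : k < l.length), l[k] = w k := by
  constructor
  · intro h k hk
    have h2 : k < (pre w l.length).length := by rw [pre_length]; exact hk
    have h1 := pre_getElem w l.length k h2
    rw [← h1]
    simp only [← h]
  · intro h
    apply List.ext_getElem
    · rw [pre_length]
    · intro k h1 h2
      rw [h k h1, pre_getElem]

theorem pre_prefix (w : ℕ → A) {m n : ℕ} (h : m ≤ n) : pre w m <+: pre w n := by
  obtain ⟨d, rfl⟩ := Nat.exists_eq_add_of_le h
  unfold pre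
  rw [List.range_add, List.map_append]
  exact ⟨_, rfl⟩

theorem eq_pre_of_prefix {l l' : List A} {w : ℕ → A} (h : l <+: l') (h' : l' = pre w l'.length) :
    l = pre w l.length := by
  rw [eq_pre_iff] at h' ⊢
  obtain ⟨t, rfl⟩ := h
  intro k hk
  have := h' k (by rw [List.length_append]; omega)
  rw [← this, List.getElem_append_left]

theorem flatMap_prefix {l l' : List A} (f : A → List A) (h : l <+: l') :
    l.flatMap f <+: l'.flatMap f := by
  obtain ⟨t, rfl⟩ := h
  rw [List.flatMap_append]
  exact ⟨_, rfl⟩

theorem iter_add (f : A → List A) (m n : ℕ) (b : A) :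
    iter f (m + n) b = (iter f m b).flatMap (iter f n) := by
  induction m generalizing b with
  | zero => simp [iter]
  | succ m ih =>
    have e : m + 1 + n = (m + n) + 1 := by ring
    rw [e]
    change (f b).flatMap (iter f (m + n)) = ((f b).flatMap (iter f m)).flatMap (iter f n)
    rw [List.flatMap_assoc]
    congr 1
    funext c
    exact ih c

theorem flatMap_iter (f : A → List A) (n : ℕ) (l : List A) :
    l.flatMap (iter f (n + 1)) = (l.flatMap f).flatMap (iter f n) := by
  rw [List.flatMap_assoc]
  rfl

/-- existence of an infinite image -/
theorem exists_image (f : A → List A) (w : ℕ → A)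
    (h : ∀ N, ∃ n, N ≤ ((pre w n).flatMap f).length) : ∃ v, IsImage f w v := by
  choose g hg using h
  refine ⟨fun k => ((pre w (g (k + 1))).flatMap f)[k]'(by have := hg (k + 1); omega), ?_, ?_⟩
  · intro N
    exact ⟨g N, hg N⟩
  · intro n
    rw [eq_pre_iff]
    intro k hk
    rcases le_total n (g (k + 1)) with h | h
    · obtain ⟨t, ht⟩ := flatMap_prefix f (pre_prefix w h)
      simp only [← ht]
      rw [List.getElem_append_left hk]
    · obtain ⟨t, ht⟩ := flatMap_prefix f (pre_prefix w h)
      simp only [← ht]
      rw [List.getElem_append_left]

theorem chain (f : A → List A) (n : ℕ) : ∀ w v : ℕ → A, ¬ Quasi w → IsImage (iter f n) w v →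
    Quasi v → WeaklyQuasiperiodic f := by
  induction n with
  | zero =>
    intro w v hw hv hq
    exfalso
    apply hw
    have : w = v := by
      funext k
      have h1 := hv.2 (k + 1)
      have h0 : (pre w (k + 1)).flatMap (iter f 0) = pre w (k + 1) := by
        change (pre w (k + 1)).flatMap (fun b => [b]) = pre w (k + 1)
        simp
      rw [h0, eq_pre_iff] at h1
      have h2 := h1 k (by rw [pre_length]; omega)
      rw [pre_getElem] at h2
      exact h2
    rw [this]
    exact hq
  | succ n ih =>
    intro w v hw hv hq
    -- the word f(w) is infinite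
    have hinf : ∀ N, ∃ m, N ≤ ((pre w m).flatMap f).length := by
      by_contra hcon
      push Not at hcon
      obtain ⟨N, hN⟩ := hcon
      -- choose m with maximal image length
      obtain ⟨ub, ⟨m, hm⟩, hub⟩ : ∃ ub, (∃ m, ((pre w m).flatMap f).length = ub) ∧
          ∀ m, ((pre w m).flatMap f).length ≤ ub := by
        classical
        have hP : ∃ k, ∃ m, ((pre w m).flatMap f).length = k := ⟨_, 0, rfl⟩
        refine ⟨Nat.findGreatest (fun k => ∃ m, ((pre w m).flatMap f).length = k) N, ?_, ?_⟩
        · have h0 := hN 0
          exact Nat.findGreatest_spec (P := fun k => ∃ m, ((pre w m).flatMap f).length = k)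
            (m := ((pre w 0).flatMap f).length) h0.le ⟨0, rfl⟩
        · intro m
          exact Nat.le_findGreatest (hN m).le ⟨m, rfl⟩
      obtain ⟨M, hM⟩ := hv.1 (((pre w m).flatMap (iter f (n + 1))).length + 1)
      have hmM : m ≤ M := by
        by_contra hlt
        push Not at hlt
        have := (flatMap_prefix (iter f (n + 1)) (pre_prefix w hlt.le)).length_le
        omega
      have hpf := flatMap_prefix f (pre_prefix w hmM)
      have heq : (pre w m).flatMap f = (pre w M).flatMap f := by
        apply hpf.eq_of_length
        have h1 := hub M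
        have h2 := hpf.length_le
        omega
      have e1 := flatMap_iter f n (pre w m)
      have e2 := flatMap_iter f n (pre w M)
      rw [e1, e2, heq] at hM
      omega
    obtain ⟨w', hw'⟩ := exists_image f w hinf
    by_cases hq' : Quasi w'
    · exact ⟨w, w', hw, hw', hq'⟩
    · apply ih w' v hq' _ hq
      constructor
      · intro N
        obtain ⟨m, hm⟩ := hv.1 N
        refine ⟨((pre w m).flatMap f).length, ?_⟩
        rw [← hw'.2 m, ← flatMap_iter]
        exact hm
      · intro m
        obtain ⟨M, hM⟩ := hinf m
        have h1 : pre w' m <+: (pre w M).flatMap f := by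
          rw [hw'.2 M]
          exact pre_prefix w' hM
        have h2 := flatMap_prefix (iter f n) h1
        rw [← flatMap_iter] at h2
        exact eq_pre_of_prefix h2 (hv.2 M)

/-- the infinite word `r s s s ...` -/
def E (a : A) (r s : List A) (k : ℕ) : A :=
  if k < r.length then r.getD k a else s.getD ((k - r.length) % s.length) a

theorem E_left (a : A) (r s : List A) (k : ℕ) (h : k < r.length) : E a r s k = r[k] := by
  unfold E
  rw [if_pos h]
  simp [h]

theorem E_right (a : A) (r s : List A) (i k : ℕ) (h : k < s.length) :
    E a r s (r.length + i * s.length + k) = s[k] := by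
  unfold E
  rw [if_neg (by omega)]
  have h1 : (r.length + i * s.length + k - r.length) % s.length = k := by
    have : r.length + i * s.length + k - r.length = k + i * s.length := by omega
    rw [this, Nat.add_mul_mod_self_right, Nat.mod_eq_of_lt h]
  rw [h1]
  simp [h]

theorem E_pre (a : A) (r s : List A) (i : ℕ) :
    r ++ (List.replicate i s).flatten = pre (E a r s) (r ++ (List.replicate i s).flatten).length := by
  induction i with
  | zero =>
    rw [eq_pre_iff]
    intro k hk
    simp only [List.replicate_zero, List.flatten_nil, List.append_nil] at hk ⊢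
    rw [E_left a r s k hk]
  | succ i ih =>
    have e : (List.replicate (i + 1) s).flatten = (List.replicate i s).flatten ++ s := by
      rw [List.replicate_succ', List.flatten_append]
      simp
    rw [e, ← List.append_assoc]
    rw [eq_pre_iff] at ih ⊢
    intro k hk
    have hlen : (r ++ (List.replicate i s).flatten).length = r.length + i * s.length := by
      simp
    rcases Nat.lt_or_ge k (r ++ (List.replicate i s).flatten).length with h | h
    · rw [List.getElem_append_left h]
      exact ih k h
    · rw [List.getElem_append_right h]
      rw [List.length_append] at hk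
      have h2 := E_right a r s i (k - (r ++ (List.replicate i s).flatten).length) (by omega)
      rw [← h2]
      congr 1
      omega

theorem E_image (a : A) (r s : List A) (F : A → List A) (hs : s ≠ []) (hFs : s.flatMap F ≠ []) :
    IsImage F (E a r s) (E a (r.flatMap F) (s.flatMap F)) := by
  have hsl : 0 < s.length := List.length_pos_iff.2 hs
  have hFl : 0 < (s.flatMap F).length := List.length_pos_iff.2 hFs
  have hF : ∀ i, (r ++ (List.replicate i s).flatten).flatMap F =
      r.flatMap F ++ (List.replicate i (s.flatMap F)).flatten := by
    intro i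
    rw [List.flatMap_append]
    congr 1
    induction i with
    | zero => simp
    | succ i ih =>
      rw [List.replicate_succ, List.replicate_succ, List.flatten_cons, List.flatten_cons,
        List.flatMap_append, ih]
  constructor
  · intro N
    refine ⟨(r ++ (List.replicate N s).flatten).length, ?_⟩
    rw [← E_pre, hF]
    simp only [List.length_append, List.length_flatten, List.map_replicate, List.sum_replicate,
      smul_eq_mul]
    nlinarith
  · intro n
    have h1 : pre (E a r s) n <+: r ++ (List.replicate n s).flatten := by
      rw [E_pre a r s n]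
      apply pre_prefix
      simp only [List.length_append, List.length_flatten, List.map_replicate, List.sum_replicate,
        smul_eq_mul]
      nlinarith
    have h2 := flatMap_prefix F h1
    rw [hF] at h2
    exact eq_pre_of_prefix h2 (E_pre a _ _ n)

theorem E_not_quasi (a : A) (β γ : List A) (hβ : a ∉ β) (hγ : a ∉ γ) (hne : β ≠ γ) :
    ¬ Quasi (E a (a :: β) (a :: γ)) := by
  rintro ⟨y, hy⟩
  set w := E a (a :: β) (a :: γ) with hw
  set R := (a :: β).length with hR
  set T := (a :: γ).length with hT
  have hR1 : R = β.length + 1 := by simp [hR]
  have hT1 : T = γ.length + 1 := by simp [hT]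
  have w0 : w 0 = a := by
    rw [hw, E_left a _ _ 0 (by simp)]
    rfl
  have wl : ∀ t, 0 < t → t < R → w t ≠ a := by
    intro t h1 h2 h3
    rw [hw, E_left a _ _ t h2] at h3
    obtain ⟨t', rfl⟩ : ∃ t', t = t' + 1 := ⟨t - 1, by omega⟩
    rw [List.getElem_cons_succ] at h3
    exact hβ (h3 ▸ List.getElem_mem _)
  have wr0 : ∀ i, w (R + i * T) = a := by
    intro i
    have := E_right a (a :: β) (a :: γ) i 0 (by simp)
    rw [← hw, ← hR, ← hT] at this
    simpa using this
  have wr : ∀ i t, 0 < t → t < T → w (R + i * T + t) ≠ a := by
    intro i t h1 h2 h3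
    have := E_right a (a :: β) (a :: γ) i t h2
    rw [← hw, ← hR, ← hT, h3] at this
    obtain ⟨t', rfl⟩ : ∃ t', t = t' + 1 := ⟨t - 1, by omega⟩
    rw [List.getElem_cons_succ] at this
    exact hγ (this ▸ List.getElem_mem _)
  -- the cover occurs at 0
  obtain ⟨c0, hc0, hc0', hocc0⟩ := hy 0
  have hc00 : c0 = 0 := by omega
  subst hc00
  have hylen : 0 < y.length := by omega
  have hocc : ∀ c, OccursAt y w c → ∀ k < y.length, w (c + k) = w k := by
    intro c hc k hk
    rw [hc k hk]
    have := hocc0 k hk
    rw [zero_add] at this
    exact this.symm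
  have hpos : ∀ c, OccursAt y w c → w c = a := by
    intro c hc
    have := hocc c hc 0 hylen
    rw [add_zero] at this
    rw [this, w0]
  have hyR : R ≤ y.length := by
    obtain ⟨c, h1, h2, h3⟩ := hy (R - 1)
    have h4 := hpos c h3
    have h5 : c = 0 := by
      by_contra h
      exact wl c (by omega) (by omega) h4
    omega
  -- a late position
  obtain ⟨c, h1, h2, h3⟩ := hy (R + y.length * T + (T - 1))
  have hTpos : 0 < T := by omega
  have hc1 : R ≤ c := by
    have : y.length * 1 ≤ y.length * T := Nat.mul_le_mul_left _ hTpos
    omega
  obtain ⟨i, t, ht, hct⟩ : ∃ i t, t < T ∧ c = R + i * T + t := by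
    refine ⟨(c - R) / T, (c - R) % T, Nat.mod_lt _ hTpos, ?_⟩
    have := Nat.div_add_mod (c - R) T
    rw [mul_comm] at this
    omega
  have ht0 : t = 0 := by
    by_contra h
    apply wr i t (by omega) ht
    rw [← hct]
    exact hpos c h3
  subst ht0
  rw [add_zero] at hct
  rcases lt_trichotomy R T with hlt | heq | hgt
  · have hyR' : y.length = R := by
      by_contra h
      have h4 := hocc c h3 R (by omega)
      have h5 := wr0 0
      rw [zero_mul, add_zero] at h5
      rw [h5, hct] at h4
      exact wr i R (by omega) hlt h4
    have h6 : R + i * T < R + y.length * T + T := by omega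
    have h7 : i * T < (y.length + 1) * T := by rw [add_mul]; omega
    have h8 : i < y.length + 1 := Nat.lt_of_mul_lt_mul_right h7
    have h9 : i * T ≤ y.length * T := Nat.mul_le_mul_right _ (by omega)
    omega
  · apply hne
    apply List.ext_getElem
    · omega
    · intro k hk1 hk2
      have h4 := hocc c h3 (k + 1) (by omega)
      have h5 : w (k + 1) = (a :: β)[k + 1]'(by simp; exact hk1) :=
        E_left a (a :: β) (a :: γ) (k + 1) (by simp; exact hk1)
      have h6 : w (R + i * T + (k + 1)) = (a :: γ)[k + 1]'(by simp; exact hk2) :=
        E_right a (a :: β) (a :: γ) i (k + 1) (by simp; exact hk2)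
      rw [← hct, h4, h5] at h6
      simpa using h6
  · have h4 := hocc c h3 T (by omega)
    have h5 := wr0 (i + 1)
    have h6 : R + (i + 1) * T = c + T := by rw [hct, add_mul]; ring
    rw [h6, h4] at h5
    exact wl T hTpos hgt h5

theorem main_occ (f : A → List A) (a : A) (u : ℕ → A) (hgen : Generates f a u) (n i l : ℕ) :
    ∃ T, OccursAt (((List.range l).map fun k => u (i + k)).flatMap (iter f n)) u T := by
  obtain ⟨m, hm⟩ := hgen.2.1 (i + l)
  have h1 := hgen.2.2 m
  have h2 : pre u (i + l) <+: iter f m a := by
    rw [h1]
    exact pre_prefix u hm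
  have h3 : pre u (i + l) = pre u i ++ (List.range l).map fun k => u (i + k) := by
    unfold pre
    rw [List.range_add, List.map_append, List.map_map]
    rfl
  have h4 := flatMap_prefix (iter f n) h2
  rw [← iter_add, h3, List.flatMap_append] at h4
  have h5 := eq_pre_of_prefix h4 (hgen.2.2 (m + n))
  rw [eq_pre_iff] at h5
  refine ⟨((pre u i).flatMap (iter f n)).length, ?_⟩
  intro k hk
  have h6 := h5 (((pre u i).flatMap (iter f n)).length + k) (by rw [List.length_append]; omega)
  rw [← h6, List.getElem_append_right (by omega)]
  congr 1
  omega

/-- If a morphism `f` generates the infinite word `u = f^ω(a)`, `u` is quasiperiodic and `f(a)` is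
not a power of `a`, then `f` is weakly quasiperiodic on infinite words. -/
theorem result (f : A → List A) (a : A) (u : ℕ → A) (hgen : Generates f a u) (hq : Quasi u)
    (hpow : ∀ k, f a ≠ List.replicate k a) : WeaklyQuasiperiodic f := by
  classical
  obtain ⟨x, hx⟩ := hq
  -- `x` occurs at 0
  obtain ⟨c0, hc0, hc0', hx0⟩ := hx 0
  have hc00 : c0 = 0 := by omega
  subst hc00
  have hxlen : 0 < x.length := by omega
  have hx0' : ∀ k (h : k < x.length), u k = x[k] := by
    intro k hk
    have := hx0 k hk
    rwa [zero_add] at this
  have hu0 : u 0 = a := by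
    have h := hgen.2.2 0
    rw [eq_pre_iff] at h
    have := h 0 (by simp [iter])
    simpa [iter] using this.symm
  have hinf : ∀ N, ∃ i, N < i ∧ u i = a := by
    intro N
    obtain ⟨c, h1, h2, h3⟩ := hx (N + x.length)
    refine ⟨c, by omega, ?_⟩
    have h4 := h3 0 hxlen
    rw [add_zero] at h4
    rw [h4, ← hx0' 0 hxlen, hu0]
  have hnext : ∀ i, ∃ j, i < j ∧ u j = a ∧ ∀ t, i < t → t < j → u t ≠ a := by
    intro i
    have hex := hinf i
    refine ⟨Nat.find hex, (Nat.find_spec hex).1, (Nat.find_spec hex).2, ?_⟩
    intro t h1 h2 h3
    exact Nat.find_min hex h2 ⟨h1, h3⟩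
  obtain ⟨ρ, hρ0, hρa, hρ⟩ := hnext 0
  -- a large iterate
  obtain ⟨n, hn⟩ := hgen.2.1 (x.length + ρ)
  set F : A → List A := iter f n with hF
  have hFa : ∀ k (h : k < (F a).length), (F a)[k] = u k := by
    have := hgen.2.2 n
    rw [eq_pre_iff] at this
    exact this
  set blk : ℕ → ℕ → List A := fun i l => (List.range l).map fun k => u (i + k) with hblk
  have hblk_len : ∀ i l, (blk i l).length = l := by intro i l; simp [hblk]
  have hblk_get : ∀ i l k (h : k < (blk i l).length), (blk i l)[k] = u (i + k) := by
    intro i l k h; simp [hblk]
  have hblk_cons : ∀ i l, 0 < l → u i = a → blk i l = a :: blk (i + 1) (l - 1) := by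
    intro i l hl hi
    apply List.ext_getElem
    · simp [hblk_len]; omega
    · intro k h1 h2
      rw [hblk_get]
      rcases Nat.eq_zero_or_pos k with rfl | hk
      · simp [hi]
      · obtain ⟨k', rfl⟩ : ∃ k', k = k' + 1 := ⟨k - 1, by omega⟩
        rw [List.getElem_cons_succ, hblk_get]
        congr 1
        ring
  have hblk_notMem : ∀ i l, (∀ t, i < t → t < i + l → u t ≠ a) → a ∉ blk (i + 1) (l - 1) := by
    intro i l h hmem
    simp only [hblk, List.mem_map, List.mem_range] at hmem
    obtain ⟨k, hk, hk2⟩ := hmem
    exact h (i + 1 + k) (by omega) (by omega) hk2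
  by_cases hall : ∀ i j, i < j → u i = a → u j = a → (∀ t, i < t → t < j → u t ≠ a) →
      blk i (j - i) = blk 0 ρ
  · -- `u` is periodic
    have hper : ∀ m, u (m * ρ) = a := by
      intro m
      induction m with
      | zero => simpa using hu0
      | succ m ih =>
        obtain ⟨j, h1, h2, h3⟩ := hnext (m * ρ)
        have h4 := hall _ _ h1 ih h2 h3
        have h5 := congrArg List.length h4
        rw [hblk_len, hblk_len] at h5
        have : (m + 1) * ρ = j := by rw [add_mul]; omega
        rw [this]
        exact h2
    have hper2 : ∀ m t, t < ρ → u (m * ρ + t) = u t := by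
      intro m t ht
      obtain ⟨j, h1, h2, h3⟩ := hnext (m * ρ)
      have h4 := hall _ _ h1 (hper m) h2 h3
      have h5 := congrArg List.length h4
      rw [hblk_len, hblk_len] at h5
      have h6 := hblk_get (m * ρ) (j - m * ρ) t (by rw [hblk_len]; omega)
      have h7 := hblk_get 0 ρ t (by rw [hblk_len]; omega)
      rw [← h6]
      simp only [h4]
      rw [h7, zero_add]
    have hper3 : ∀ m k, u (m * ρ + k) = u k := by
      intro m k
      have h1 := Nat.div_add_mod k ρ
      have h2 := Nat.mod_lt k hρ0
      have h3 := hper2 (k / ρ) (k % ρ) h2
      have h4 := hper2 (m + k / ρ) (k % ρ) h2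
      have e1 : k / ρ * ρ + k % ρ = k := by rw [mul_comm]; exact h1
      have e2 : (m + k / ρ) * ρ + k % ρ = m * ρ + k := by rw [add_mul, add_assoc, e1]
      rw [e1] at h3
      rw [e2] at h4
      rw [h4, h3]
    set β := blk 1 (ρ - 1) with hβ
    have hr : blk 0 ρ = a :: β := hblk_cons 0 ρ hρ0 hu0
    have haβ : a ∉ β := hblk_notMem 0 ρ (by simpa using hρ)
    have hβne : β ≠ [] := by
      intro h
      have h1 : ρ = 1 := by
        have := congrArg List.length h
        rw [hβ, hblk_len] at this
        simp at this
        omega
      -- then `u = a^ω`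
      apply hpow (f a).length
      rw [List.eq_replicate_iff]
      refine ⟨rfl, ?_⟩
      intro b hb
      have h2 : iter f 1 a = f a := by
        change (f a).flatMap (fun b => [b]) = f a
        simp
      have h3 := hgen.2.2 1
      rw [h2] at h3
      rw [h3] at hb
      unfold pre at hb
      rw [List.mem_map] at hb
      obtain ⟨k, -, rfl⟩ := hb
      have := hper k
      rwa [h1, mul_one] at this
    apply chain f n (E a (a :: β) (a :: [])) (E a ((a :: β).flatMap F) ([a].flatMap F))
      (E_not_quasi a β [] haβ (by simp) hβne)
    · apply E_image a (a :: β) [a] F (by simp)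
      intro h
      have := congrArg List.length h
      simp at this
      rw [this] at hn
      simp at hn
      omega
    · -- covered by `F a`
      have e1 : [a].flatMap F = F a := by simp
      rw [e1]
      refine ⟨F a, ?_⟩
      set L := ((a :: β).flatMap F).length with hL
      set v := E a ((a :: β).flatMap F) (F a) with hv
      have hvu : ∀ k, k < L + (F a).length → v k = u k := by
        intro k hk
        -- `r a` is a prefix of `u`
        have h1 : (a :: β) ++ [a] = pre u (ρ + 1) := by
          rw [← hr]
          unfold pre
          rw [List.range_succ, List.map_append]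
          simp [hblk, hρa]
        obtain ⟨m, hm⟩ := hgen.2.1 (ρ + 1)
        have h2 : pre u (ρ + 1) <+: iter f m a := by
          rw [hgen.2.2 m]
          exact pre_prefix u hm
        have h3 := flatMap_prefix F h2
        rw [hF, ← iter_add, ← hF, ← h1, List.flatMap_append, e1] at h3
        have h4 := eq_pre_of_prefix h3 (hgen.2.2 (m + n))
        rw [eq_pre_iff] at h4
        have h5 := h4 k (by rw [List.length_append]; omega)
        rw [← h5]
        rcases Nat.lt_or_ge k L with h6 | h6
        · rw [hv, E_left a _ _ k h6, List.getElem_append_left h6]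
        · rw [List.getElem_append_right h6]
          have h7 := E_right a ((a :: β).flatMap F) (F a) 0 (k - L) (by omega)
          rw [← hv, ← hL] at h7
          rw [← h7]
          congr 1
          omega
      intro p
      rcases Nat.lt_or_ge p L with hp | hp
      · refine ⟨p / ρ * ρ, Nat.div_mul_le_self p ρ, ?_, ?_⟩
        · have := Nat.lt_div_mul_add (a := p) hρ0
          omega
        · intro k hk
          have h1 := Nat.div_mul_le_self p ρ
          rw [hvu _ (by omega), hper3, hFa]
      · have hFpos : 0 < (F a).length := by omega
        refine ⟨L + (p - L) / (F a).length * (F a).length, ?_, ?_, ?_⟩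
        · have := Nat.div_mul_le_self (p - L) (F a).length
          omega
        · have := Nat.lt_div_mul_add (a := p - L) hFpos
          omega
        · intro k hk
          exact E_right a _ _ _ k hk
  · -- two different return words
    push Not at hall
    obtain ⟨i, j, hij, hi, hj, hbet, hne⟩ := hall
    set β := blk 1 (ρ - 1) with hβ
    set γ := blk (i + 1) (j - i - 1) with hγ
    have hr : blk 0 ρ = a :: β := hblk_cons 0 ρ hρ0 hu0
    have hs : blk i (j - i) = a :: γ := hblk_cons i (j - i) (by omega) hi
    have haβ : a ∉ β := hblk_notMem 0 ρ (by simpa using hρ)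
    have haγ : a ∉ γ := hblk_notMem i (j - i) (by
      intro t h1 h2
      exact hbet t h1 (by omega))
    have hβγ : β ≠ γ := by
      intro h
      apply hne
      rw [hr, hs, h]
    apply chain f n (E a (a :: β) (a :: γ)) (E a ((a :: β).flatMap F) ((a :: γ).flatMap F))
      (E_not_quasi a β γ haβ haγ hβγ)
    · apply E_image a (a :: β) (a :: γ) F (by simp)
      intro h
      have := congrArg List.length h
      simp at this
      rw [this.1] at hn
      simp at hn
      omega
    · refine ⟨x, ?_⟩
      set L := ((a :: β).flatMap F).length with hL
      set M := ((a :: γ).flatMap F).length with hM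
      set v := E a ((a :: β).flatMap F) ((a :: γ).flatMap F) with hv
      have hxF : x.length ≤ (F a).length := by omega
      have hFM : (F a).length ≤ M := by
        rw [hM, List.flatMap_cons, List.length_append]; omega
      have hMpos : 0 < M := by omega
      -- the block structure of `v`: at a block start, the block followed by `F a`
      have vr : ∀ m k, k < M → ∃ hk : k < ((a :: γ).flatMap F).length,
          v (L + m * M + k) = ((a :: γ).flatMap F)[k] := by
        intro m k hk
        refine ⟨hk, ?_⟩
        exact E_right a _ _ m k hk
      have vFa : ∀ m k, (hk : k < (F a).length) → v (L + m * M + k) = (F a)[k] := by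
        intro m k hk
        obtain ⟨hk', h⟩ := vr m k (by omega)
        rw [h]
        have e : (a :: γ).flatMap F = F a ++ γ.flatMap F := List.flatMap_cons
        simp only [e]
        rw [List.getElem_append_left hk]
      have key : ∀ (P l i' : ℕ), 0 < l → u i' = a → u (i' + l) = a →
          (∀ k (h : k < ((blk i' l).flatMap F).length), v (P + k) = ((blk i' l).flatMap F)[k]) →
          (∀ k (h : k < (F a).length), v (P + ((blk i' l).flatMap F).length + k) = (F a)[k]) →
          ∀ p, P ≤ p → p < P + ((blk i' l).flatMap F).length →
          ∃ c ≤ p, p < c + x.length ∧ OccursAt x v c := by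
        intro P l i' hl hi' hil hv1 hv2 p hp1 hp2
        -- occurrence of the block followed by `a` in `u`
        obtain ⟨T, hT⟩ := main_occ f a u hgen n i' (l + 1)
        have e1 : (List.range (l + 1)).map (fun k => u (i' + k)) = blk i' l ++ [a] := by
          rw [List.range_succ, List.map_append]
          simp [hblk, hil]
        rw [e1, ← hF, List.flatMap_append] at hT
        have e2 : [a].flatMap F = F a := by simp
        rw [e2] at hT
        have hvT : ∀ k, k < ((blk i' l).flatMap F).length + (F a).length → v (P + k) = u (T + k) := by
          intro k hk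
          have h1 := hT k (by rw [List.length_append]; exact hk)
          rw [h1]
          rcases Nat.lt_or_ge k ((blk i' l).flatMap F).length with h2 | h2
          · rw [List.getElem_append_left h2]
            exact hv1 k h2
          · rw [List.getElem_append_right h2]
            have h3 := hv2 (k - ((blk i' l).flatMap F).length) (by omega)
            rw [← h3]
            congr 1
            omega
        rcases Nat.lt_or_ge (p - P) x.length with h | h
        · -- `x` is a prefix of `F a`
          refine ⟨P, hp1, by omega, ?_⟩
          intro k hk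
          have h1 : (blk i' l).flatMap F = F a ++ (blk (i' + 1) (l - 1)).flatMap F := by
            rw [hblk_cons i' l hl hi']
            exact List.flatMap_cons
          have h2 : k < ((blk i' l).flatMap F).length := by
            rw [h1, List.length_append]; omega
          rw [hv1 k h2]
          simp only [h1]
          rw [List.getElem_append_left (by omega), hFa, hx0']
        · obtain ⟨c, h1, h2, h3⟩ := hx (T + (p - P))
          refine ⟨P + (c - T), by omega, by omega, ?_⟩
          intro k hk
          have h4 := h3 k hk
          have h5 := hvT (c - T + k) (by omega)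
          have e3 : P + (c - T) + k = P + (c - T + k) := by ring
          have e4 : T + (c - T + k) = c + k := by omega
          rw [e3, h5, e4, h4]
      intro p
      rcases Nat.lt_or_ge p L with hp | hp
      · apply key 0 ρ 0 hρ0 hu0 (by rw [zero_add]; exact hρa) _ _ p (by omega)
          (by rw [hr, zero_add]; exact hp)
        · intro k hk
          rw [zero_add]
          simp only [hr] at hk ⊢
          exact E_left a _ _ k hk
        · intro k hk
          have := vFa 0 k hk
          rw [hr, zero_add, ← hL]
          rw [zero_mul, add_zero] at this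
          exact this
      · have h1 := Nat.div_add_mod (p - L) M
        have h2 := Nat.mod_lt (p - L) hMpos
        rw [mul_comm] at h1
        apply key (L + (p - L) / M * M) (j - i) i (by omega) hi
          (by have : i + (j - i) = j := by omega
              rw [this]; exact hj) _ _ p (by omega) (by rw [hs, ← hM]; omega)
        · intro k hk
          simp only [hs] at hk ⊢
          obtain ⟨_, h⟩ := vr ((p - L) / M) k hk
          exact h
        · intro k hk
          rw [hs, ← hM]
          have := vFa ((p - L) / M + 1) k hk
          rw [← this]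
          congr 1
          rw [add_mul, one_mul]
          ring

end Pool.Agent.Results.MP_c0e3d8_co.WeaklyQuasi
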